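import Pool.Agent.K4H9.ST.Smooth

set_option autoImplicit false

/-!
The number of odd primes.
-/

namespace Pool.Agent.K4H9.ST

open Finset Filter

lemma card_PP (y : ℕ) : Nat.primeCounting y ≤ (PP y).card + 1 := by
  classical
  have h1 : Nat.primeCounting y = ((Finset.range (y + 1)).filter Nat.Prime).card := by
    rw [Nat.primeCounting, Nat.primeCounting', Nat.count_eq_card_filter_range]
  rw [h1]
  calc ((Finset.range (y + 1)).filter Nat.Prime).card ≤ (insert 2 (PP y)).card := by
        refine Finset.card_le_card fun p hp => ?_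
        rw [Finset.mem_filter, Finset.mem_range] at hp
        rw [Finset.mem_insert, mem_PP]
        by_cases h : p = 2
        · exact Or.inl h
        · exact Or.inr ⟨by omega, hp.2, h⟩
    _ ≤ _ := Finset.card_insert_le _ _

/-- `y ≤ 2 k log y` for large `y`, `k` the number of odd primes up to `y` -/
lemma PP_large : ∀ᶠ y : ℕ in atTop, (y : ℝ) ≤ 2 * (PP y).card * Real.log y ∧
    Real.log y ≤ 2 * Real.log (PP y).card ∧ Real.sqrt y ≤ (PP y).card := by
  have h1 : ∀ᶠ x : ℝ in atTop, 2 * Real.log x + 1 ≤ x / 10 := by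
    have := Real.isLittleO_log_id_atTop.bound (show (0 : ℝ) < 1 / 40 by norm_num)
    filter_upwards [this, eventually_ge_atTop 20] with x hx hx2
    rw [Real.norm_of_nonneg (Real.log_nonneg (by linarith)), id, Real.norm_of_nonneg (by linarith)]
      at hx
    linarith
  have h2 : ∀ᶠ x : ℝ in atTop, 2 * Real.log x ≤ Real.sqrt x := by
    have := (isLittleO_log_rpow_atTop (show (0 : ℝ) < 1 / 2 by norm_num)).bound
      (show (0 : ℝ) < 1 / 2 by norm_num)
    filter_upwards [this, eventually_ge_atTop 1] with x hx hx2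
    rw [Real.norm_of_nonneg (Real.log_nonneg (by linarith)), ← Real.sqrt_eq_rpow,
      Real.norm_of_nonneg (Real.sqrt_nonneg _)] at hx
    linarith
  filter_upwards [tendsto_natCast_atTop_atTop.eventually h1,
    tendsto_natCast_atTop_atTop.eventually h2, eventually_ge_atTop 3] with y hy1 hy2 hy3
  have hyR : (3 : ℝ) ≤ y := by exact_mod_cast hy3
  have hlog : 0 < Real.log y := Real.log_pos (by linarith)
  have hlog1 : 1 ≤ Real.log y := by
    rw [Real.le_log_iff_exp_le (by linarith)]
    linarith [Real.exp_one_lt_d9]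
  have h3 := Chebyshev.pi_ge y
  have h4 : (Nat.primeCounting y : ℝ) ≤ (PP y).card + 1 := by exact_mod_cast card_PP y
  rw [div_le_iff₀ hlog] at h3
  have h5 : Real.log ((y : ℝ) + 1) ≤ Real.log y + 1 := by
    have : Real.log ((y : ℝ) + 1) ≤ Real.log (y * Real.exp 1) := by
      refine Real.log_le_log (by linarith) ?_
      have := Real.add_one_le_exp (1 : ℝ)
      nlinarith
    rwa [Real.log_mul (by linarith) (Real.exp_ne_zero _), Real.log_exp] at this
  have hl2 : (0.69 : ℝ) ≤ Real.log 2 := by linarith [Real.log_two_gt_d9]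
  have h6 : (y : ℝ) ≤ 2 * (PP y).card * Real.log y := by
    have h7 : (Nat.primeCounting y : ℝ) * Real.log y ≤ ((PP y).card + 1) * Real.log y :=
      mul_le_mul_of_nonneg_right h4 hlog.le
    nlinarith
  have h8 : Real.sqrt y ≤ (PP y).card := by
    have h9 : (y : ℝ) ≤ (PP y).card * Real.sqrt y := by
      have : ((PP y).card : ℝ) * (2 * Real.log y) ≤ (PP y).card * Real.sqrt y :=
        mul_le_mul_of_nonneg_left hy2 (Nat.cast_nonneg _)
      linarith
    have h10 : 0 < Real.sqrt y := Real.sqrt_pos.2 (by linarith)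
    have h11 : Real.sqrt y * Real.sqrt y = y := Real.mul_self_sqrt (by linarith)
    nlinarith
  refine ⟨h6, ?_, h8⟩
  have h10 : 0 < Real.sqrt y := Real.sqrt_pos.2 (by linarith)
  have h12 := Real.log_le_log h10 h8
  rw [Real.log_sqrt (by linarith)] at h12
  linarith

end Pool.Agent.K4H9.ST
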