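import Pool.Agent.K4H9.ST.Points
import Pool.Agent.K4H9.ST.Cheb

set_option autoImplicit false

/-!
Lower bound for the error term in the truncated Vojta inequality.
-/

namespace Pool.Agent.K4H9.ST

open NumberField IsDedekindDomain Height Finset Filter Pool.Agent.W231.V Pool.Agent.W231.G
  Pool.Agent.W231.H

variable {K : Type*} [Field K] [NumberField K]

omit [NumberField K] in
/-- a homogeneous polynomial at a multiple of a point -/
lemma eval_smul_hom {Ω : Type*} [Field Ω] {σ : Type*} [Fintype σ] (G : MvPolynomial σ Ω) {δ : ℕ}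
    (hG : G.IsHomogeneous δ) (t : Ω) (x : σ → Ω) :
    MvPolynomial.eval (fun j => t * x j) G = t ^ δ * MvPolynomial.eval x G := by
  rw [MvPolynomial.eval_eq', MvPolynomial.eval_eq', Finset.mul_sum]
  refine Finset.sum_congr rfl fun m hm => ?_
  have h1 : ∑ j, m j = δ := by
    have := hG (MvPolynomial.mem_support_iff.1 hm)
    rw [Finsupp.weight_apply, Finsupp.sum_fintype _ _ (fun _ => by simp)] at this
    simpa using this
  simp only [mul_pow]
  rw [Finset.prod_mul_distrib, Finset.prod_pow_eq_pow_sum, h1]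
  ring

/-- a nonzero form does not vanish at some of our points -/
lemma exists_nonzero {n : ℕ} {Ω : Type*} [Field Ω] [CharZero Ω] (b : Fin (n + 1) → Fin (n + 1) → Ω)
    (L : Fin (n + 1) → Fin (n + 1) → Ω) (e : Fin (n + 1) → Ω) (he : ∀ j, e j ≠ 0)
    (hb : ∀ i j, ∑ k, L i k * b j k = if i = j then e j else 0)
    (G : MvPolynomial (Fin (n + 1)) Ω) (hG : G ≠ 0) : ∃ N : ℕ, ∀ W : Finset ℕ, N < W.card →
      ∃ u : Fin (n + 1) → ℕ, (∀ j, u j ∈ W) ∧
        MvPolynomial.eval (fun j => ∑ l, (u l : Ω) * b l j) G ≠ 0 := by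
  classical
  set H : MvPolynomial (Fin (n + 1)) Ω := MvPolynomial.aeval
    (fun j => ∑ l, MvPolynomial.X l * MvPolynomial.C (b l j)) G with hH
  have hHev : ∀ z : Fin (n + 1) → Ω, MvPolynomial.eval z H =
      MvPolynomial.eval (fun j => ∑ l, z l * b l j) G := by
    intro z
    rw [hH, MvPolynomial.aeval_def, MvPolynomial.hom_eval₂]
    have h2 : (MvPolynomial.eval z).comp
        (algebraMap Ω (MvPolynomial (Fin (n + 1)) Ω)) = RingHom.id Ω := by ext c; simp
    rw [h2]
    change _ = MvPolynomial.eval₂ (RingHom.id Ω) _ G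
    congr 1
    funext j
    simp
  have hH0 : H ≠ 0 := by
    intro h0
    apply hG
    refine MvPolynomial.funext fun x => ?_
    rw [map_zero]
    -- `x` is a combination of the `b l`
    have hinj : Function.Injective (Matrix.mulVecLin (Matrix.of fun j l => b l j)) := by
      rw [injective_iff_map_eq_zero]
      intro z hz
      funext i
      have h1 : ∀ j, ∑ l, b l j * z l = 0 := fun j => congrFun hz j
      have h2 : ∑ j, L i j * ∑ l, b l j * z l = e i * z i := by
        simp only [Finset.mul_sum]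
        rw [Finset.sum_comm]
        have h3 : ∀ l, ∑ j, L i j * (b l j * z l) = (if i = l then e l else 0) * z l := by
          intro l
          rw [← hb, Finset.sum_mul]
          exact Finset.sum_congr rfl fun j _ => by ring
        rw [Finset.sum_congr rfl fun l _ => h3 l, Finset.sum_eq_single i]
        · rw [if_pos rfl]
        · intro l _ hl
          rw [if_neg (Ne.symm hl), zero_mul]
        · intro h
          exact absurd (Finset.mem_univ _) h
      rw [Finset.sum_eq_zero fun j _ => by rw [h1 j, mul_zero]] at h2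
      exact (mul_eq_zero.1 h2.symm).resolve_left (he i)
    obtain ⟨z, hz⟩ := LinearMap.injective_iff_surjective.1 hinj x
    have h4 := hHev z
    rw [h0, map_zero] at h4
    have h5 : (fun j => ∑ l, z l * b l j) = x := by
      rw [← hz]
      funext j
      exact Finset.sum_congr rfl fun l _ => by rw [mul_comm]; rfl
    rw [h5] at h4
    exact h4.symm
  refine ⟨H.totalDegree, fun W hW => ?_⟩
  by_contra hcon
  push Not at hcon
  apply hH0
  refine MvPolynomial.eq_zero_of_eval_zero_at_prod_finset H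
    (fun _ => W.map ⟨fun m : ℕ => (m : Ω), Nat.cast_injective⟩) (fun i => ?_) fun x hx => ?_
  · rw [Finset.card_map]
    exact (MvPolynomial.degreeOf_le_totalDegree _ _).trans_lt hW
  · have h1 : ∀ i, ∃ m ∈ W, (m : Ω) = x i := by
      intro i
      obtain ⟨m, hm, hmx⟩ := Finset.mem_map.1 (hx i)
      exact ⟨m, hm, hmx⟩
    choose u hu hux using h1
    have h2 := hcon u hu
    rw [hHev]
    simpa only [hux] using h2

theorem main_st {n : ℕ} (hn : 1 ≤ n) (L : Fin (n + 2) → Fin (n + 1) → K)
    (hL : ∀ I : Finset (Fin (n + 2)), I.card = n + 1 → LinearIndependent K (fun i : I => L i))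
    (F : MvPolynomial (Fin (n + 1)) K) {d : ℕ} (hF0 : F ≠ 0) (hFd : F.IsHomogeneous d)
    (hdiv : (∏ i, lin (L i)) ∣ F)
    {Ω : Type*} [Field Ω] [Algebra K Ω] (G : MvPolynomial (Fin (n + 1)) Ω) (hG : G ≠ 0) {δ : ℕ}
    (hGδ : G.IsHomogeneous δ) (M₀ : ℝ) :
    ∃ x : Fin (n + 1) → K, MvPolynomial.eval x F ≠ 0 ∧
      MvPolynomial.eval (fun j => algebraMap K Ω (x j)) G ≠ 0 ∧ M₀ ≤ logHeight x ∧
      {v : HeightOneSpectrum (𝓞 K) | Bad v F d x}.Finite ∧
      ∀ T : Finset (HeightOneSpectrum (𝓞 K)), (∀ v ∈ T, Bad v F d x) →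
        ∑ v ∈ T, ell v ≤ ((d : ℝ) - n - 1) * logHeight x -
          1 / 40 * (Real.sqrt (logHeight x) / Real.log (logHeight x)) := by
  classical
  have : CharZero Ω := charZero_of_injective_algebraMap (algebraMap K Ω).injective
  set φ : K →+* Ω := algebraMap K Ω with hφ
  -- degrees
  obtain ⟨E, hE⟩ := hdiv
  have hE0 : E ≠ 0 := by
    rintro rfl
    exact hF0 (by rw [hE, mul_zero])
  have hL0 : (∏ i, lin (L i)) ≠ 0 := by
    intro h
    exact hF0 (by rw [hE, h, zero_mul])
  have hlinh : ∀ l : Fin (n + 1) → K, (lin l).IsHomogeneous 1 := by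
    intro l
    unfold lin
    refine MvPolynomial.IsHomogeneous.sum _ _ _ fun j _ => ?_
    have := (MvPolynomial.isHomogeneous_C (Fin (n + 1)) (l j)).mul
      (MvPolynomial.isHomogeneous_X K j)
    rwa [zero_add] at this
  have hprodh : (∏ i, lin (L i)).IsHomogeneous (n + 2) := by
    have := MvPolynomial.IsHomogeneous.prod (Finset.univ) (fun i => lin (L i)) (fun _ => 1)
      (fun i _ => hlinh (L i))
    simpa using this
  have hEdeg : d = n + 2 + E.totalDegree := by
    have h1 := MvPolynomial.totalDegree_mul_of_isDomain hL0 hE0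
    rw [← hE, hFd.totalDegree hF0, hprodh.totalDegree hL0] at h1
    exact h1
  obtain ⟨b, e, he, hb, hbl⟩ := exists_vecs hn L hL
  obtain ⟨C, hC⟩ := count_pts L E d b e he hb hbl
  rw [← hE] at hC
  set G' : MvPolynomial (Fin (n + 1)) Ω := G * MvPolynomial.map φ F with hG'
  have hG'0 : G' ≠ 0 := by
    refine mul_ne_zero hG ?_
    intro h
    exact hF0 (MvPolynomial.map_injective φ φ.injective (by rw [h, map_zero]))
  have hG'δ : G'.IsHomogeneous (δ + d) := hGδ.mul (hFd.map φ)
  obtain ⟨N, hN⟩ := exists_nonzero (fun l j => φ (b l j)) (fun i k => φ (L (Fin.castSucc i) k))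
    (fun j => φ (e j)) (fun j => by
      rw [Ne, map_eq_zero]
      exact he j) (by
      intro i j
      have := congrArg φ (hb i j)
      rw [map_sum] at this
      simp only [map_mul] at this
      rw [this]
      split_ifs
      · rfl
      · exact map_zero φ) G' hG'0
  -- constants
  set D : ℝ := (totalWeight K : ℝ) with hD
  have hD1 : 1 ≤ D := by
    have : (totalWeight K : ℝ) = (Module.finrank ℚ K : ℝ) := by
      rw [← sum_mult]
      exact_mod_cast InfinitePlace.sum_mult_eq
    rw [hD, this]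
    exact_mod_cast Module.finrank_pos
  set E0 : ℝ := (E.totalDegree : ℝ) with hE0'
  have hE00 : 0 ≤ E0 := Nat.cast_nonneg _
  set N₀ : ℕ := N + 1 with hN₀
  set C' : ℝ := (2 + E0) * |C| + D * Real.log (2 * N₀) with hC'
  have hN₀R : (1 : ℝ) ≤ N₀ := by exact_mod_cast (by omega : 1 ≤ N₀)
  have hlogN : 0 ≤ Real.log (2 * N₀) := Real.log_nonneg (by linarith)
  have hC'0 : |C| ≤ C' := by
    have := abs_nonneg C
    have h2 : 0 ≤ D * Real.log (2 * N₀) := by positivity
    nlinarith
  have hCa := abs_nonneg C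
  -- choice of `y`
  have hk1 : Tendsto (fun y : ℕ => ((PP y).card : ℝ)) atTop atTop := by
    refine tendsto_atTop_mono' atTop (PP_large.mono fun y hy => hy.2.2) ?_
    exact (Real.tendsto_sqrt_atTop).comp tendsto_natCast_atTop_atTop
  have hk2 := hk1.eventually_ge_atTop (max (max 4 (N₀ : ℝ)) (max (2 * C')
    (max (2 * (1 + E0) * M₀) ((2 * (1 + E0)) ^ 2))))
  obtain ⟨y, hy1, hy2, hy3⟩ := (PP_large.and (hk2.and (eventually_ge_atTop 3))).exists
  obtain ⟨hy11, hy12, hy13⟩ := hy1
  set k : ℝ := ((PP y).card : ℝ) with hk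
  have k4 : 4 ≤ k := (le_max_left _ _).trans ((le_max_left _ _).trans hy2)
  have kN : (N₀ : ℝ) ≤ k := (le_max_right _ _).trans ((le_max_left _ _).trans hy2)
  have kC : 2 * C' ≤ k := (le_max_left _ _).trans ((le_max_right _ _).trans hy2)
  have kM : 2 * (1 + E0) * M₀ ≤ k :=
    (le_max_left _ _).trans ((le_max_right _ _).trans ((le_max_right _ _).trans hy2))
  have kE : (2 * (1 + E0)) ^ 2 ≤ k :=
    (le_max_right _ _).trans ((le_max_right _ _).trans ((le_max_right _ _).trans hy2))
  obtain ⟨m, W, hWc, hW1, hW2, hW3⟩ := smooth_class y N₀ (by omega) (by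
    rw [hk] at kN
    exact_mod_cast kN)
  obtain ⟨u0, hu0, hu0G⟩ := hN W (by omega)
  -- remove the common factor
  set g : ℕ := Finset.univ.gcd u0 with hg
  have hu01 : ∀ j, 1 ≤ u0 j := fun j => (hW1 _ (hu0 j)).1
  have hgdvd : ∀ j, g ∣ u0 j := fun j => Finset.gcd_dvd (Finset.mem_univ j)
  have hg0 : 1 ≤ g := Nat.pos_of_dvd_of_pos (hgdvd 0) (hu01 0)
  set u : Fin (n + 1) → ℕ := fun j => u0 j / g with hu
  have hgu : ∀ j, u0 j = g * u j := fun j => (Nat.mul_div_cancel' (hgdvd j)).symm
  have hu1 : ∀ j, 1 ≤ u j := fun j => Nat.div_pos (Nat.le_of_dvd (hu01 j) (hgdvd j)) hg0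
  obtain ⟨j0, _, hj0⟩ := Finset.exists_max_image (Finset.univ : Finset (Fin (n + 1))) u
    Finset.univ_nonempty
  set M : ℕ := u j0 with hM
  have hM1 : 1 ≤ M := hu1 j0
  have hM1R : (1 : ℝ) ≤ M := by exact_mod_cast hM1
  have hcop : ∀ p : ℕ, p.Prime → ∃ j, ¬ p ∣ u j := by
    intro p hp
    by_contra hcon
    push Not at hcon
    have h1 : g * p ∣ g := by
      conv_rhs => rw [hg]
      refine Finset.dvd_gcd fun j _ => ?_
      rw [hgu j]
      exact Nat.mul_dvd_mul_left g (hcon j)
    have h2 := Nat.le_of_dvd hg0 h1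
    have := hp.two_le
    nlinarith
  have hsm : ∀ j, ∀ p : ℕ, p.Prime → p ∣ u j → p ∈ PP y := by
    intro j p hp hpu
    refine (hW1 _ (hu0 j)).2.2 p hp ?_
    rw [hgu j]
    exact hpu.mul_left g
  have hgodd : Nat.Coprime (2 ^ m) g := by
    refine Nat.Coprime.pow_left _ ((Nat.Prime.coprime_iff_not_dvd Nat.prime_two).2 fun h2 => ?_)
    exact (mem_PP.1 ((hW1 _ (hu0 0)).2.2 2 Nat.prime_two (h2.trans (hgdvd 0)))).2.2 rfl
  have hmod : ∀ i j, u i ≡ u j [MOD 2 ^ m] := by
    intro i j
    have h1 := hW2 _ (hu0 i) _ (hu0 j)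
    rw [hgu i, hgu j] at h1
    exact Nat.ModEq.cancel_left_of_coprime hgodd h1
  have hptev : ∀ {Ω' : Type _} [Field Ω'] (ψ : K →+* Ω') (j : Fin (n + 1)),
      ∑ l, (u0 l : Ω') * ψ (b l j) = (g : Ω') * ψ (pt b u j) := by
    intro Ω' _ ψ j
    unfold pt
    rw [map_sum, Finset.mul_sum]
    refine Finset.sum_congr rfl fun l _ => ?_
    rw [hgu l, map_mul, map_natCast]
    push_cast
    ring
  have hGx' : MvPolynomial.eval (fun j => φ (pt b u j)) G' ≠ 0 := by
    intro h0
    apply hu0G
    have h1 : (fun j => ∑ l, (u0 l : Ω) * φ (b l j)) = fun j => (g : Ω) * φ (pt b u j) :=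
      funext fun j => hptev φ j
    rw [h1, eval_smul_hom G' hG'δ, h0, mul_zero]
  rw [hG', map_mul] at hGx'
  have hFx : MvPolynomial.eval (pt b u) F ≠ 0 := by
    intro h0
    apply right_ne_zero_of_mul hGx'
    rw [MvPolynomial.eval_map]
    have h2 : φ (MvPolynomial.eval (pt b u) F) =
        MvPolynomial.eval₂ φ (fun l => φ (pt b u l)) F := by
      have h3 : MvPolynomial.eval (pt b u) F =
        MvPolynomial.eval₂ (RingHom.id K) (pt b u) F := rfl
      rw [h3, MvPolynomial.hom_eval₂, RingHom.comp_id]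
    rw [← h2, h0, map_zero]
  obtain ⟨q1, q2, q3, q4⟩ := hC u M m y hu1 (fun j => hj0 j (Finset.mem_univ _)) ⟨j0, rfl⟩ hcop
    hsm hmod hFx
  set h : ℝ := logHeight (pt b u) with hh
  clear_value h
  -- the size
  set T : ℝ := Real.exp 1 * k * y * Real.log y with hT
  have hyR : (3 : ℝ) ≤ y := by exact_mod_cast hy3
  have hlogy : 1 ≤ Real.log y := by
    rw [Real.le_log_iff_exp_le (by linarith)]
    linarith [Real.exp_one_lt_d9]
  have hMT : Real.log M ≤ T := by
    have h1 := (hW1 _ (hu0 j0)).2.1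
    refine le_trans (Real.log_le_log (by linarith) ?_) h1
    rw [hgu j0]
    exact_mod_cast Nat.le_mul_of_pos_left _ hg0
  -- the truncated counting function
  have hdR : (d : ℝ) = n + 2 + E0 := by rw [hE0', hEdeg]; push_cast; ring
  have htr : ∀ T' : Finset (HeightOneSpectrum (𝓞 K)), (∀ v ∈ T', Bad v F d (pt b u)) →
      ∑ v ∈ T', ell v ≤ ((d : ℝ) - n - 1) * h - D * k + C' := by
    intro T' hT'
    refine (q4 T' hT').trans ?_
    have h1 : D * (∑ p ∈ PP y, Real.log (p : ℝ) + (1 + E0) * Real.log M - m * Real.log 2) ≤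
        (1 + E0) * (D * Real.log M) - D * k + D * Real.log (2 * N₀) := by
      have h2 : D * (k + ∑ p ∈ PP y, Real.log (p : ℝ)) ≤
          D * (m * Real.log 2 + Real.log (2 * N₀)) := mul_le_mul_of_nonneg_left hW3 (by linarith)
      linarith
    have h3 : (1 + E0) * (D * Real.log M) ≤ (1 + E0) * (h + |C|) :=
      mul_le_mul_of_nonneg_left (q1.trans (by linarith [le_abs_self C])) (by linarith)
    have h4 := le_abs_self C
    rw [hdR, hC']
    linarith
  clear_value T k E0 D C'
  have hkD : k ≤ D * k := by nlinarith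
  have hlow : k / 2 ≤ (1 + E0) * h := by
    have h1 := htr ∅ (by simp)
    rw [Finset.sum_empty, hdR] at h1
    have : ((n : ℝ) + 2 + E0 - n - 1) = 1 + E0 := by ring
    rw [this] at h1
    linarith
  have hk0 : 0 < k := by linarith
  have hsq : Real.sqrt k ≤ h := by
    have h1 : 2 * (1 + E0) ≤ Real.sqrt k := Real.le_sqrt_of_sq_le kE
    have h2 : Real.sqrt k * Real.sqrt k = k := Real.mul_self_sqrt hk0.le
    have h3 : 0 < Real.sqrt k := Real.sqrt_pos.2 hk0
    by_contra hcon
    push Not at hcon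
    nlinarith
  have hsk : 2 ≤ Real.sqrt k := Real.le_sqrt_of_sq_le (by linarith)
  have hlogk : 0 < Real.log k := Real.log_pos (by linarith)
  have hlogh : Real.log k / 2 ≤ Real.log h := by
    have h1 := Real.log_le_log (by linarith) hsq
    rw [Real.log_sqrt hk0.le] at h1
    exact h1
  have hTk : k ≤ T := by
    rw [hT]
    have h1 : 1 ≤ Real.exp 1 := by linarith [Real.add_one_le_exp (1 : ℝ)]
    have h2 : k ≤ Real.exp 1 * k := by nlinarith
    have h3 : Real.exp 1 * k ≤ Real.exp 1 * k * y := by nlinarith [mul_pos (Real.exp_pos 1) hk0]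
    have h4 : Real.exp 1 * k * y ≤ Real.exp 1 * k * y * Real.log y := by
      have : 0 < Real.exp 1 * k * y := by positivity
      nlinarith
    linarith
  have hup : h ≤ 2 * (D * T) := by
    have h1 : D * Real.log M ≤ D * T := mul_le_mul_of_nonneg_left hMT (by linarith)
    have h2 : C ≤ T := by linarith [le_abs_self C]
    have h3 : T ≤ D * T := by nlinarith
    linarith
  have hTle : T ≤ 8 * Real.exp 1 * (k * Real.log k) ^ 2 := by
    rw [hT]
    have h1 : (y : ℝ) * Real.log y ≤ 8 * k * (Real.log k) ^ 2 := by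
      have h2 : (y : ℝ) * Real.log y ≤ (2 * k * Real.log y) * Real.log y :=
        mul_le_mul_of_nonneg_right hy11 (by linarith)
      have h3 : Real.log y * Real.log y ≤ (2 * Real.log k) * (2 * Real.log k) :=
        mul_le_mul hy12 hy12 (by linarith) (by linarith)
      nlinarith
    have h4 : Real.exp 1 * k * ((y : ℝ) * Real.log y) ≤
        Real.exp 1 * k * (8 * k * (Real.log k) ^ 2) :=
      mul_le_mul_of_nonneg_left h1 (by positivity)
    nlinarith
  have hsqrt : Real.sqrt h ≤ 7 * D * (k * Real.log k) := by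
    rw [Real.sqrt_le_left (by positivity)]
    refine hup.trans ?_
    have h1 : D * T ≤ D * (8 * Real.exp 1 * (k * Real.log k) ^ 2) :=
      mul_le_mul_of_nonneg_left hTle (by linarith)
    have h2 : 0 ≤ (k * Real.log k) ^ 2 := sq_nonneg _
    have h3 : Real.exp 1 ≤ 3 := by linarith [Real.exp_one_lt_d9]
    have h4 : D ≤ D ^ 2 := by nlinarith
    calc 2 * (D * T) ≤ 2 * (D * (8 * Real.exp 1 * (k * Real.log k) ^ 2)) := by linarith
      _ ≤ 2 * (D * (8 * 3 * (k * Real.log k) ^ 2)) := by
          have : D * (8 * Real.exp 1 * (k * Real.log k) ^ 2) ≤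
              D * (8 * 3 * (k * Real.log k) ^ 2) := by
            refine mul_le_mul_of_nonneg_left ?_ (by linarith)
            nlinarith
          linarith
      _ = 48 * D * (k * Real.log k) ^ 2 := by ring
      _ ≤ 49 * D ^ 2 * (k * Real.log k) ^ 2 := by
          refine mul_le_mul_of_nonneg_right ?_ h2
          nlinarith
      _ = (7 * D * (k * Real.log k)) ^ 2 := by ring
  have hfinal : 1 / 40 * (Real.sqrt h / Real.log h) ≤ D * k / 2 := by
    have hlogh0 : 0 < Real.log h := by linarith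
    have h1 : Real.sqrt h / Real.log h ≤ 14 * D * k := by
      rw [div_le_iff₀ hlogh0]
      have : 14 * D * k * (Real.log k / 2) ≤ 14 * D * k * Real.log h :=
        mul_le_mul_of_nonneg_left hlogh (by positivity)
      nlinarith
    nlinarith
  refine ⟨pt b u, hFx, left_ne_zero_of_mul hGx', ?_, q3, fun T' hT' => ?_⟩
  · rw [← hh]
    by_contra hcon
    push Not at hcon
    have : 2 * (1 + E0) * h < 2 * (1 + E0) * M₀ := mul_lt_mul_of_pos_left hcon (by linarith)
    nlinarith
  · rw [← hh]
    refine (htr T' hT').trans ?_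
    linarith

end Pool.Agent.K4H9.ST
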