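import Mathlib

set_option autoImplicit false

/-!
Many smooth odd integers in one residue class modulo a power of two.
-/

namespace Pool.Agent.K4H9.ST

open Finset

/-- the odd primes up to `y` -/
def PP (y : ℕ) : Finset ℕ := (Finset.range (y + 1)).filter (fun p => p.Prime ∧ p ≠ 2)

lemma mem_PP {y p : ℕ} : p ∈ PP y ↔ p ≤ y ∧ p.Prime ∧ p ≠ 2 := by
  simp [PP, Nat.lt_succ_iff]

/-- the product of prime powers -/
def uu (y : ℕ) (e : PP y → ℕ) : ℕ := ∏ p : PP y, (p : ℕ) ^ e p

lemma uu_pos (y : ℕ) (e : PP y → ℕ) : 0 < uu y e :=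
  Finset.prod_pos fun p _ => pow_pos (mem_PP.1 p.2).2.1.pos _

lemma uu_fact (y : ℕ) (e : PP y → ℕ) (q : PP y) : (uu y e).factorization q = e q := by
  classical
  unfold uu
  rw [Nat.factorization_prod (fun p _ => pow_ne_zero _ (mem_PP.1 p.2).2.1.ne_zero),
    Finsupp.finset_sum_apply]
  rw [Finset.sum_eq_single q]
  · rw [(mem_PP.1 q.2).2.1.factorization_pow, Finsupp.single_eq_same]
  · intro p _ hpq
    rw [(mem_PP.1 p.2).2.1.factorization_pow, Finsupp.single_apply, if_neg]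
    intro h
    exact hpq (Subtype.ext h)
  · intro h
    exact absurd (Finset.mem_univ _) h

lemma uu_inj (y : ℕ) : Function.Injective (uu y) := by
  intro e e' h
  funext q
  rw [← uu_fact y e q, h, uu_fact]

lemma uu_dvd (y : ℕ) (e : PP y → ℕ) {p : ℕ} (hp : p.Prime) (h : p ∣ uu y e) : p ∈ PP y := by
  unfold uu at h
  obtain ⟨q, _, hq⟩ := (Prime.dvd_finset_prod_iff hp.prime _).1 h
  have h1 := hp.dvd_of_dvd_pow hq
  rw [(Nat.prime_dvd_prime_iff_eq hp (mem_PP.1 q.2).2.1).1 h1]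
  exact q.2

theorem smooth_class (y N₀ : ℕ) (hN : 1 ≤ N₀) (hk : N₀ ≤ (PP y).card) :
    ∃ (m : ℕ) (W : Finset ℕ), N₀ < W.card ∧
      (∀ u ∈ W, 1 ≤ u ∧ Real.log u ≤ Real.exp 1 * (PP y).card * y * Real.log y ∧
        ∀ p, p.Prime → p ∣ u → p ∈ PP y) ∧
      (∀ u ∈ W, ∀ u' ∈ W, u ≡ u' [MOD 2 ^ m]) ∧
      ((PP y).card : ℝ) + ∑ p ∈ PP y, Real.log p ≤ m * Real.log 2 + Real.log (2 * N₀) := by
  classical
  set k : ℕ := (PP y).card with hkdef
  have hk1 : 1 ≤ k := hN.trans hk
  have hkR : (1 : ℝ) ≤ k := by exact_mod_cast hk1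
  obtain ⟨p0, hp0⟩ : (PP y).Nonempty := by
    rw [← Finset.card_pos]; omega
  have hy3 : 3 ≤ y := by
    obtain ⟨h1, h2, h3⟩ := mem_PP.1 hp0
    have := h2.two_le
    omega
  have hyR : (3 : ℝ) ≤ y := by exact_mod_cast hy3
  have hlogy : 0 < Real.log y := Real.log_pos (by linarith)
  set T : ℝ := Real.exp 1 * k * y * Real.log y with hT
  have hT0 : 0 < T := by positivity
  set nn : PP y → ℕ := fun p => ⌊T / (k * Real.log (p : ℕ))⌋₊ with hnn
  have hlogp : ∀ p : PP y, 0 < Real.log ((p : ℕ) : ℝ) := by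
    intro p
    refine Real.log_pos ?_
    exact_mod_cast (mem_PP.1 p.2).2.1.one_lt
  have hnn1 : ∀ p : PP y, Real.exp 1 * ((p : ℕ) : ℝ) ≤ (nn p : ℝ) + 1 := by
    intro p
    have h1 : T / (k * Real.log (p : ℕ)) < (nn p : ℝ) + 1 := Nat.lt_floor_add_one _
    refine le_trans ?_ h1.le
    have hpy : ((p : ℕ) : ℝ) ≤ y := by exact_mod_cast (mem_PP.1 p.2).1
    have hp0' : (0 : ℝ) < ((p : ℕ) : ℝ) := by exact_mod_cast (mem_PP.1 p.2).2.1.pos
    rw [le_div_iff₀ (mul_pos (by linarith) (hlogp p)), hT]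
    have h2 : Real.log ((p : ℕ) : ℝ) ≤ Real.log y := Real.log_le_log hp0' hpy
    have h3 : ((p : ℕ) : ℝ) * Real.log ((p : ℕ) : ℝ) ≤ y * Real.log y :=
      mul_le_mul hpy h2 (hlogp p).le (by linarith)
    calc Real.exp 1 * ((p : ℕ) : ℝ) * (k * Real.log ((p : ℕ) : ℝ)) =
        Real.exp 1 * k * (((p : ℕ) : ℝ) * Real.log ((p : ℕ) : ℝ)) := by ring
      _ ≤ Real.exp 1 * k * (y * Real.log y) := mul_le_mul_of_nonneg_left h3 (by positivity)
      _ = _ := by ring
  set E : Finset (PP y → ℕ) := Fintype.piFinset fun p => Finset.range (nn p + 1) with hE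
  set U : Finset ℕ := E.image (uu y) with hU
  have hUcard : U.card = ∏ p : PP y, (nn p + 1) := by
    rw [hU, Finset.card_image_of_injective _ (uu_inj y), hE, Fintype.card_piFinset]
    simp
  have hUlog : (k : ℝ) + ∑ p ∈ PP y, Real.log p ≤ Real.log U.card := by
    rw [hUcard, ← Finset.sum_coe_sort (PP y) (fun p => Real.log (p : ℝ))]
    push_cast
    rw [Real.log_prod (fun p _ => by positivity)]
    have h1 : (k : ℝ) = ∑ p : PP y, (1 : ℝ) := by
      rw [Finset.sum_const, Finset.card_univ, Fintype.card_coe, nsmul_eq_mul, mul_one]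
    rw [h1, ← Finset.sum_add_distrib]
    refine Finset.sum_le_sum fun p _ => ?_
    have hp0' : (0 : ℝ) < ((p : ℕ) : ℝ) := by exact_mod_cast (mem_PP.1 p.2).2.1.pos
    have h2 := Real.log_le_log (by positivity) (hnn1 p)
    rw [Real.log_mul (Real.exp_ne_zero _) hp0'.ne', Real.log_exp] at h2
    exact h2
  have hUbig : N₀ < U.card := by
    by_contra hcon
    push Not at hcon
    have hpos : 0 < U.card := by
      rw [hUcard]
      exact Finset.prod_pos fun p _ => Nat.succ_pos _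
    have h1 : Real.log U.card ≤ Real.log N₀ :=
      Real.log_le_log (by exact_mod_cast hpos) (by exact_mod_cast hcon)
    have h2 : Real.log (N₀ : ℝ) ≤ N₀ - 1 := Real.log_le_sub_one_of_pos (by exact_mod_cast hN)
    have h3 : 0 ≤ ∑ p ∈ PP y, Real.log (p : ℝ) :=
      Finset.sum_nonneg fun p _ => Real.log_natCast_nonneg p
    have h4 : (N₀ : ℝ) ≤ k := by exact_mod_cast hk
    linarith
  -- the exponent
  obtain ⟨m, hm1, hm2⟩ : ∃ m : ℕ, 2 ^ m * N₀ < U.card ∧ U.card ≤ 2 ^ (m + 1) * N₀ := by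
    have hex : ∃ m : ℕ, U.card ≤ 2 ^ (m + 1) * N₀ := by
      refine ⟨U.card, ?_⟩
      calc U.card ≤ 2 ^ (U.card + 1) := (Nat.lt_two_pow_self).le.trans
            (Nat.pow_le_pow_right (by norm_num) (by omega))
        _ = 2 ^ (U.card + 1) * 1 := (mul_one _).symm
        _ ≤ _ := Nat.mul_le_mul_left _ hN
    refine ⟨Nat.find hex, ?_, Nat.find_spec hex⟩
    by_contra hcon
    push Not at hcon
    rcases Nat.eq_zero_or_pos (Nat.find hex) with h0 | h0
    · rw [h0] at hcon
      omega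
    · have := Nat.find_min hex (m := Nat.find hex - 1) (by omega)
      apply this
      rw [Nat.sub_add_cancel h0]
      exact hcon
  obtain ⟨b, _, hb⟩ := Finset.exists_lt_card_fiber_of_mul_lt_card_of_maps_to
    (s := U) (t := Finset.range (2 ^ m)) (f := fun u => u % 2 ^ m) (n := N₀)
    (fun u _ => Finset.mem_range.2 (Nat.mod_lt _ (by positivity))) (by
      rw [Finset.card_range]; exact hm1)
  refine ⟨m, U.filter (fun u => u % 2 ^ m = b), hb, ?_, ?_, ?_⟩
  · intro u hu
    obtain ⟨hu1, _⟩ := Finset.mem_filter.1 hu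
    rw [hU] at hu1
    obtain ⟨e, he, rfl⟩ := Finset.mem_image.1 hu1
    refine ⟨uu_pos y e, ?_, fun p hp hpd => uu_dvd y e hp hpd⟩
    rw [hE, Fintype.mem_piFinset] at he
    unfold uu
    push_cast
    rw [Real.log_prod (fun p _ => by
      have : (0 : ℝ) < ((p : ℕ) : ℝ) := by exact_mod_cast (mem_PP.1 p.2).2.1.pos
      positivity)]
    have h1 : ∀ p : PP y, Real.log (((p : ℕ) : ℝ) ^ e p) ≤ T / k := by
      intro p
      rw [Real.log_pow]
      have h2 : e p ≤ nn p := by
        have := Finset.mem_range.1 (he p)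
        omega
      have h3 : (nn p : ℝ) ≤ T / (k * Real.log (p : ℕ)) := by
        refine Nat.floor_le ?_
        exact (div_pos hT0 (mul_pos (by linarith) (hlogp p))).le
      have h4 : (e p : ℝ) ≤ T / (k * Real.log (p : ℕ)) := le_trans (by exact_mod_cast h2) h3
      rw [le_div_iff₀ (mul_pos (by linarith) (hlogp p))] at h4
      rw [le_div_iff₀ (by linarith)]
      linarith
    refine (Finset.sum_le_sum fun p _ => h1 p).trans ?_
    rw [Finset.sum_const, Finset.card_univ, Fintype.card_coe, nsmul_eq_mul]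
    rw [mul_div_cancel₀]
    exact (by linarith : (k : ℝ) ≠ 0)
  · intro u hu u' hu'
    have h1 := (Finset.mem_filter.1 hu).2
    have h2 := (Finset.mem_filter.1 hu').2
    exact h1.trans h2.symm
  · refine hUlog.trans ?_
    have hpos : (0 : ℝ) < U.card := by exact_mod_cast (by omega : 0 < U.card)
    have h1 : (U.card : ℝ) ≤ 2 ^ m * (2 * N₀) := by
      have : (U.card : ℝ) ≤ (2 ^ (m + 1) * N₀ : ℕ) := by exact_mod_cast hm2
      refine this.trans (le_of_eq ?_)
      push_cast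
      ring
    have h2 := Real.log_le_log hpos h1
    have hN0 : (0 : ℝ) < N₀ := by exact_mod_cast hN
    rw [Real.log_mul (by positivity) (by positivity), Real.log_pow] at h2
    exact h2

end Pool.Agent.K4H9.ST
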