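import Pool.Agent.W231.H.Cnt
import Pool.Agent.K4H9.ST.Smooth

set_option autoImplicit false

/-!
The points whose coordinates with respect to `n + 2` hyperplanes in general position are smooth
numbers and a number divisible by a high power of two.
-/

namespace Pool.Agent.K4H9.ST

open NumberField IsDedekindDomain Height Finset Pool.Agent.W231.V Pool.Agent.W231.G
  Pool.Agent.W231.H

variable {K : Type*} [Field K] [NumberField K]

/-- the point with coordinates `u` with respect to the vectors `b` -/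
def pt {n : ℕ} (b : Fin (n + 1) → Fin (n + 1) → K) (u : Fin (n + 1) → ℕ) (j : Fin (n + 1)) : K :=
  ∑ l, (u l : K) * b l j

omit [NumberField K] in
lemma form_pt' {n : ℕ} (b : Fin (n + 1) → Fin (n + 1) → K) (u : Fin (n + 1) → ℕ)
    (c : Fin (n + 1) → K) : ∑ j, c j * pt b u j = ∑ l, (u l : K) * ∑ j, c j * b l j := by
  unfold pt
  simp only [Finset.mul_sum]
  rw [Finset.sum_comm]
  refine Finset.sum_congr rfl fun l _ => Finset.sum_congr rfl fun j _ => ?_
  ring

/-- integers with sum zero -/
def aa (n : ℕ) (j : Fin (n + 1)) : ℤ := if j = Fin.last n then -n else 1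

lemma aa_ne {n : ℕ} (hn : 1 ≤ n) (j : Fin (n + 1)) : aa n j ≠ 0 := by
  unfold aa
  split_ifs
  · omega
  · exact one_ne_zero

lemma aa_sum (n : ℕ) : ∑ j, aa n j = 0 := by
  rw [Fin.sum_univ_castSucc]
  have h1 : ∀ i : Fin n, aa n i.castSucc = 1 := by
    intro i
    unfold aa
    rw [if_neg (Fin.castSucc_lt_last i).ne]
  have h2 : aa n (Fin.last n) = -n := by unfold aa; rw [if_pos rfl]
  rw [h2, Finset.sum_congr rfl fun i _ => h1 i]
  simp

lemma aa_abs (n : ℕ) (j : Fin (n + 1)) : |aa n j| ≤ n + 1 := by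
  unfold aa
  split_ifs
  · rw [abs_neg, Nat.abs_cast]; omega
  · rw [abs_one]; omega

omit [NumberField K] in
lemma exists_vecs {n : ℕ} (hn : 1 ≤ n) (L : Fin (n + 2) → Fin (n + 1) → K) [CharZero K]
    (hgp : ∀ I : Finset (Fin (n + 2)), I.card = n + 1 → LinearIndependent K (fun i : I => L i)) :
    ∃ (b : Fin (n + 1) → Fin (n + 1) → K) (e : Fin (n + 1) → K), (∀ j, e j ≠ 0) ∧
      (∀ i j, ∑ k, L (Fin.castSucc i) k * b j k = if i = j then e j else 0) ∧
      (∀ j, ∑ k, L (Fin.last (n + 1)) k * b j k = (aa n j : K)) := by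
  classical
  set e' : Fin (n + 1) ↪ Fin (n + 2) := Fin.castSuccEmb with he'
  obtain ⟨f, hf, hf'⟩ := exists_dual L hgp e'
  have hlast : ∀ k, e' k ≠ Fin.last (n + 1) := fun k => (Fin.castSucc_lt_last k).ne
  have hlam := hf' _ hlast
  refine ⟨fun l j => (aa n l : K) / (∑ j, L (Fin.last (n + 1)) j * f l j) * f l j,
    fun l => (aa n l : K) / (∑ j, L (Fin.last (n + 1)) j * f l j), ?_, ?_, ?_⟩
  · intro j
    exact div_ne_zero (Int.cast_ne_zero.2 (aa_ne hn j)) (hlam j)
  · intro i j
    have h1 : ∑ k, L (Fin.castSucc i) k * ((aa n j : K) /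
        (∑ j', L (Fin.last (n + 1)) j' * f j j') * f j k) =
        (aa n j : K) / (∑ j', L (Fin.last (n + 1)) j' * f j j') *
          ∑ k, L (e' i) k * f j k := by
      rw [Finset.mul_sum]
      refine Finset.sum_congr rfl fun k _ => ?_
      change L (e' i) k * _ = _
      ring
    rw [h1, hf]
    split_ifs
    · rw [mul_one]
    · rw [mul_zero]
  · intro j
    have h1 : ∑ k, L (Fin.last (n + 1)) k * ((aa n j : K) /
        (∑ j', L (Fin.last (n + 1)) j' * f j j') * f j k) =
        (aa n j : K) / (∑ j', L (Fin.last (n + 1)) j' * f j j') *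
          ∑ k, L (Fin.last (n + 1)) k * f j k := by
      rw [Finset.mul_sum]
      refine Finset.sum_congr rfl fun k _ => ?_
      ring
    rw [h1, div_mul_cancel₀ _ (hlam j)]

/-- heights of values of a polynomial in several variables at positive integers -/
lemma height_mv_le {σ : Type*} [Fintype σ] (R : MvPolynomial σ K) :
    ∃ C : ℝ, ∀ (u : σ → ℕ) (M : ℕ), (∀ j, u j ≤ M) → 1 ≤ M →
      logHeight₁ (MvPolynomial.eval (fun j => (u j : K)) R) ≤
        (totalWeight K : ℝ) * (R.totalDegree * Real.log M) + C := by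
  classical
  set A : Fin 2 × Option R.support → K := fun p => p.2.elim (![0, 1] p.1)
    (fun s => ![R.coeff s.1, 0] p.1) with hA
  refine ⟨totalWeight K * Real.log (Nat.card (Option R.support)) + logHeight A,
    fun u M hu hM => ?_⟩
  set y : Option R.support → K := fun o => o.elim 1 (fun s => ∏ j, (u j : K) ^ s.1 j) with hy
  have h1 := logHeight_linearMap_apply_le A y
  have h2 : (fun j => ∑ i, A (j, i) * y i) =
      ![MvPolynomial.eval (fun j => (u j : K)) R, 1] := by
    funext j
    rw [Fintype.sum_option]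
    fin_cases j
    · simp only [hA, hy]
      simp only [Fin.zero_eta, Option.elim_none, Option.elim_some, Matrix.cons_val_zero, zero_mul,
        zero_add]
      rw [MvPolynomial.eval_eq', ← Finset.sum_coe_sort R.support
        (fun s => R.coeff s * ∏ j, (u j : K) ^ s j)]
    · simp [hA, hy]
  rw [h2, ← logHeight₁_eq_logHeight] at h1
  have hM' : (1 : ℝ) ≤ M := by exact_mod_cast hM
  have h3 : logHeight y ≤ (totalWeight K : ℝ) * Real.log ((M : ℝ) ^ R.totalDegree) := by
    refine logHeight_le_of ?_ (by positivity) ?_ ?_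
    · intro h
      have := congrFun h none
      simp [hy] at this
    · intro w i
      rcases i with _ | s
      · simpa [hy] using one_le_pow₀ hM'
      · simp only [hy, Option.elim_some]
        rw [map_prod]
        have e : ∀ j, w ((u j : K) ^ s.1 j) = (u j : ℝ) ^ s.1 j := by
          intro j
          rw [map_pow]
          congr 1
          simp
        rw [Finset.prod_congr rfl fun j _ => e j]
        calc ∏ j, (u j : ℝ) ^ s.1 j ≤ ∏ j, (M : ℝ) ^ s.1 j := by
              refine Finset.prod_le_prod (fun j _ => by positivity) fun j _ => ?_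
              exact pow_le_pow_left₀ (Nat.cast_nonneg _) (by exact_mod_cast hu j) _
          _ = (M : ℝ) ^ (∑ j, s.1 j) := by rw [Finset.prod_pow_eq_pow_sum]
          _ ≤ _ := by
              refine pow_le_pow_right₀ hM' ?_
              have := MvPolynomial.le_totalDegree s.2
              rwa [Finsupp.sum_fintype _ _ (fun _ => rfl)] at this
    · intro v i
      rcases i with _ | s
      · simp [hy]
      · simp only [hy, Option.elim_some]
        rw [map_prod]
        refine Finset.prod_le_one (fun j _ => (fv v).nonneg _) fun j _ => ?_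
        rw [map_pow]
        exact pow_le_one₀ ((fv v).nonneg _) (fv_nat v _)
  rw [Real.log_pow] at h3
  linarith


lemma fv_cast_natAbs (v : HeightOneSpectrum (𝓞 K)) (a : ℤ) :
    fv v (a : K) = fv v ((a.natAbs : ℕ) : K) := by
  rcases Int.natAbs_eq a with h | h
  · conv_lhs => rw [h]
    rw [Int.cast_natCast]
  · conv_lhs => rw [h]
    rw [Int.cast_neg, map_neg_eq_map, Int.cast_natCast]

lemma fv_int (v : HeightOneSpectrum (𝓞 K)) (a : ℤ) : fv v (a : K) ≤ 1 := by
  rw [fv_cast_natAbs]
  exact fv_nat v a.natAbs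

lemma fv_sum_lt (v : HeightOneSpectrum (𝓞 K)) {κ : Type*} (s : Finset κ) (f : κ → K)
    (h : ∀ k ∈ s, fv v (f k) < 1) : fv v (∑ k ∈ s, f k) < 1 := by
  classical
  induction s using Finset.induction_on with
  | empty => simp
  | insert k s hk ih =>
    rw [sum_insert hk]
    exact (fv_na v _ _).trans_lt (max_lt (h k (mem_insert_self k s))
      (ih fun j hj => h j (mem_insert_of_mem hj)))

/-- the height of a vector of coprime positive integers -/
lemma logHeight_nat_ge {σ : Type*} [Fintype σ] [Nonempty σ] (u : σ → ℕ) (M : ℕ) (hM : 1 ≤ M)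
    (hu : ∃ j, u j = M) (hg : ∀ p : ℕ, p.Prime → ∃ j, ¬ p ∣ u j) :
    (totalWeight K : ℝ) * Real.log M ≤ logHeight (fun j => (u j : K)) := by
  classical
  obtain ⟨j0, hj0⟩ := hu
  have hMR : (1 : ℝ) ≤ M := by exact_mod_cast hM
  have hx : (fun j => (u j : K)) ≠ 0 := by
    intro h
    have := congrFun h j0
    simp only [Pi.zero_apply, Nat.cast_eq_zero, hj0] at this
    omega
  rw [logHeight_eq_log_mulHeight, ← Real.log_pow]
  refine Real.log_le_log (by positivity) ?_
  rw [NumberField.mulHeight_eq hx]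
  have h3 : (M : ℝ) ^ totalWeight K ≤ ∏ v : InfinitePlace K, (⨆ i, v (u i : K)) ^ v.mult := by
    rw [totalWeight_eq_sum_mult, ← Finset.prod_pow_eq_pow_sum]
    refine Finset.prod_le_prod (fun w _ => by positivity) fun w _ => ?_
    refine pow_le_pow_left₀ (by positivity) ?_ _
    refine le_trans (le_of_eq ?_) (le_ciSup (Set.finite_range _).bddAbove j0)
    rw [hj0]
    simp
  have h4 : (∏ᶠ v : FinitePlace K, ⨆ i, v (u i : K)) = 1 := by
    refine finprod_eq_one_of_forall_eq_one fun v => ?_
    obtain ⟨w, rfl⟩ : ∃ w, FinitePlace.mk w = v := ⟨v.maximalIdeal, FinitePlace.mk_maximalIdeal v⟩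
    refine le_antisymm (ciSup_le fun i => fv_nat w _) ?_
    by_contra hcon
    push Not at hcon
    have hlt : ∀ i, fv w (u i : K) < 1 := fun i =>
      lt_of_le_of_lt (le_ciSup (f := fun i => FinitePlace.mk w (u i : K))
        (Set.finite_range _).bddAbove i) hcon
    obtain ⟨c, hc⟩ := Finset.gcd_eq_sum_mul (Finset.univ : Finset σ) (fun i => (u i : ℤ))
    set g : ℤ := (Finset.univ : Finset σ).gcd (fun i => (u i : ℤ)) with hgdef
    have hg1 : g.natAbs = 1 := by
      by_contra hne
      obtain ⟨p, hp, hpg⟩ := Nat.exists_prime_and_dvd hne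
      obtain ⟨j, hj⟩ := hg p hp
      apply hj
      have h5 : g ∣ (u j : ℤ) := Finset.gcd_dvd (Finset.mem_univ j)
      have h6 : (p : ℤ) ∣ g := Int.natCast_dvd.2 hpg
      exact_mod_cast h6.trans h5
    have h5 : fv w (g : K) = 1 := by
      rw [fv_cast_natAbs, hg1]
      simp
    have h6 : fv w (g : K) < 1 := by
      rw [hc]
      push_cast
      refine fv_sum_lt w _ _ fun i _ => ?_
      rw [map_mul]
      calc fv w (u i : K) * fv w (c i : K) ≤ fv w (u i : K) * 1 :=
            mul_le_mul_of_nonneg_left (fv_int w _) ((fv w).nonneg _)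
        _ < 1 := by rw [mul_one]; exact hlt i
    linarith
  rw [h4, mul_one]
  exact h3

lemma fv_prime (v : HeightOneSpectrum (𝓞 K)) (u : ℕ) (hu : 1 ≤ u)
    (h : ∀ p : ℕ, p.Prime → p ∣ u → fv v (p : K) = 1) : fv v (u : K) = 1 := by
  induction u using Nat.recOnMul with
  | zero => omega
  | one => simp
  | prime p hp => exact h p hp dvd_rfl
  | mul a b ha hb =>
    have ha1 : 1 ≤ a := Nat.one_le_iff_ne_zero.2 (by rintro rfl; simp at hu)
    have hb1 : 1 ≤ b := Nat.one_le_iff_ne_zero.2 (by rintro rfl; simp at hu)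
    rw [Nat.cast_mul, map_mul, ha ha1 fun p hp hpa => h p hp (hpa.mul_right b),
      hb hb1 fun p hp hpb => h p hp (hpb.mul_left a), one_mul]

theorem count_pts {n : ℕ} (L : Fin (n + 2) → Fin (n + 1) → K)
    (E : MvPolynomial (Fin (n + 1)) K) (d : ℕ)
    (b : Fin (n + 1) → Fin (n + 1) → K) (e : Fin (n + 1) → K) (he : ∀ j, e j ≠ 0)
    (hb : ∀ i j, ∑ k, L (Fin.castSucc i) k * b j k = if i = j then e j else 0)
    (hbl : ∀ j, ∑ k, L (Fin.last (n + 1)) k * b j k = (aa n j : K)) :
    ∃ C : ℝ, ∀ (u : Fin (n + 1) → ℕ) (M m y : ℕ), (∀ j, 1 ≤ u j) → (∀ j, u j ≤ M) →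
      (∃ j, u j = M) → (∀ p : ℕ, p.Prime → ∃ j, ¬ p ∣ u j) →
      (∀ j, ∀ p : ℕ, p.Prime → p ∣ u j → p ∈ PP y) → (∀ i j, u i ≡ u j [MOD 2 ^ m]) →
      MvPolynomial.eval (pt b u) ((∏ i, lin (L i)) * E) ≠ 0 →
      (totalWeight K : ℝ) * Real.log M ≤ logHeight (pt b u) + C ∧
      logHeight (pt b u) ≤ (totalWeight K : ℝ) * Real.log M + C ∧
      {v : HeightOneSpectrum (𝓞 K) | Bad v ((∏ i, lin (L i)) * E) d (pt b u)}.Finite ∧
      ∀ T : Finset (HeightOneSpectrum (𝓞 K)),
        (∀ v ∈ T, Bad v ((∏ i, lin (L i)) * E) d (pt b u)) →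
        ∑ v ∈ T, ell v ≤ (totalWeight K : ℝ) * (∑ p ∈ PP y, Real.log p +
          (1 + E.totalDegree) * Real.log M - m * Real.log 2) + C := by
  classical
  set F : MvPolynomial (Fin (n + 1)) K := (∏ i, lin (L i)) * E with hF
  -- the restriction of `E`
  set RE : MvPolynomial (Fin (n + 1)) K := MvPolynomial.aeval
    (fun j => ∑ l, MvPolynomial.X l * MvPolynomial.C (b l j)) E with hRE
  have hREv : ∀ u : Fin (n + 1) → ℕ, MvPolynomial.eval (fun l => (u l : K)) RE =
      MvPolynomial.eval (pt b u) E := by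
    intro u
    rw [hRE, MvPolynomial.aeval_def, MvPolynomial.hom_eval₂]
    have h2 : (MvPolynomial.eval fun l => (u l : K)).comp
        (algebraMap K (MvPolynomial (Fin (n + 1)) K)) = RingHom.id K := by ext c; simp
    rw [h2]
    change _ = MvPolynomial.eval₂ (RingHom.id K) _ E
    congr 1
    funext j
    simp [pt]
  have hREdeg : RE.totalDegree ≤ E.totalDegree := by
    rw [hRE, MvPolynomial.aeval_def, MvPolynomial.eval₂_eq']
    refine MvPolynomial.totalDegree_finsetSum_le fun s hs => ?_
    refine (MvPolynomial.totalDegree_mul _ _).trans ?_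
    have h1 : (algebraMap K (MvPolynomial (Fin (n + 1)) K) (E.coeff s)).totalDegree = 0 := by
      rw [MvPolynomial.algebraMap_eq]
      exact MvPolynomial.totalDegree_C _
    rw [h1, zero_add]
    refine (MvPolynomial.totalDegree_finset_prod _ _).trans ?_
    have h2 : ∀ j, ((∑ l, MvPolynomial.X l * MvPolynomial.C (b l j) :
        MvPolynomial (Fin (n + 1)) K) ^ s j).totalDegree ≤ s j := by
      intro j
      refine (MvPolynomial.totalDegree_pow _ _).trans ?_
      have h3 : (∑ l, MvPolynomial.X l * MvPolynomial.C (b l j) :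
          MvPolynomial (Fin (n + 1)) K).totalDegree ≤ 1 := by
        refine MvPolynomial.totalDegree_finsetSum_le fun l _ => ?_
        refine (MvPolynomial.totalDegree_mul _ _).trans ?_
        rw [MvPolynomial.totalDegree_C, MvPolynomial.totalDegree_X]
      calc s j * _ ≤ s j * 1 := Nat.mul_le_mul_left _ h3
        _ = s j := mul_one _
    refine (Finset.sum_le_sum fun j _ => h2 j).trans ?_
    have := MvPolynomial.le_totalDegree hs
    rwa [Finsupp.sum_fintype _ _ (fun _ => rfl)] at this
  obtain ⟨C3, hC3⟩ := height_mv_le RE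
  -- the bad primes
  set cs : Finset K := {2} ∪ E.support.image E.coeff ∪ F.support.image F.coeff ∪
    Finset.univ.image e ∪ (Finset.univ.image fun p : Fin (n + 1) × Fin (n + 1) => b p.1 p.2)
    with hcs
  obtain ⟨T0, hT0⟩ := exists_bad cs
  have hm2 : (2 : K) ∈ cs := by simp [hcs]
  have hcm : ∀ E' : MvPolynomial (Fin (n + 1)) K, E'.support.image E'.coeff ⊆ cs →
      ∀ v ∉ T0, ∀ m, fv v (E'.coeff m) ≤ 1 := by
    intro E' hE' v hv m
    by_cases h : E'.coeff m = 0
    · rw [h, map_zero]; exact zero_le_one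
    · exact (hT0 v hv _ (hE' (Finset.mem_image.2 ⟨m, MvPolynomial.mem_support_iff.2 h, rfl⟩))).2
  have hcE := hcm E (by intro y hy; simp only [hcs, Finset.mem_union]; tauto)
  have hcF := hcm F (by intro y hy; simp only [hcs, Finset.mem_union]; tauto)
  have hme : ∀ v ∉ T0, ∀ i, fv v (e i) = 1 := by
    intro v hv i
    refine (hT0 v hv _ ?_).1 (he i)
    have : e i ∈ Finset.univ.image e := Finset.mem_image.2 ⟨i, Finset.mem_univ _, rfl⟩
    simp only [hcs, Finset.mem_union]; tauto
  have hmb : ∀ v ∉ T0, ∀ l j, fv v (b l j) ≤ 1 := by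
    intro v hv l j
    refine (hT0 v hv _ ?_).2
    have : b l j ∈ (Finset.univ.image fun p : Fin (n + 1) × Fin (n + 1) => b p.1 p.2) :=
      Finset.mem_image.2 ⟨(l, j), Finset.mem_univ _, rfl⟩
    simp only [hcs, Finset.mem_union]; tauto
  -- constants
  set D : ℝ := (totalWeight K : ℝ) with hD
  have hD0 : 0 ≤ D := Nat.cast_nonneg _
  set B1 : Fin (n + 1) × Fin (n + 1) → K := fun p => b p.2 p.1 with hB1
  set B2 : Fin (n + 1) × Fin (n + 1) → K := fun p => L (Fin.castSucc p.1) p.2 / e p.1 with hB2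
  set c1 : ℝ := D * Real.log (Nat.card (Fin (n + 1))) + logHeight B1 with hc1
  set c2 : ℝ := D * Real.log (Nat.card (Fin (n + 1))) + logHeight B2 with hc2
  set c3 : ℝ := ∑ v ∈ T0, ell v + D * (2 * Real.log (n + 1)) + |C3| with hc3
  have hc10 : 0 ≤ c1 := by
    have h1 : 0 ≤ logHeight B1 := logHeight_nonneg _
    have h2 : 0 ≤ Real.log (Nat.card (Fin (n + 1)) : ℝ) := Real.log_natCast_nonneg _
    positivity
  have hc20 : 0 ≤ c2 := by
    have h1 : 0 ≤ logHeight B2 := logHeight_nonneg _
    have h2 : 0 ≤ Real.log (Nat.card (Fin (n + 1)) : ℝ) := Real.log_natCast_nonneg _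
    positivity
  have hlogn : 0 ≤ Real.log ((n : ℝ) + 1) := Real.log_nonneg (by
    have : (0 : ℝ) ≤ n := Nat.cast_nonneg n
    linarith)
  have hc30 : 0 ≤ c3 := by
    have h1 : 0 ≤ ∑ v ∈ T0, ell v := Finset.sum_nonneg fun v _ => (ell_pos v).le
    have h2 := abs_nonneg C3
    positivity
  refine ⟨c1 + c2 + c3, fun u M m y hu1 huM huMe hug huP hum hFx => ?_⟩
  obtain ⟨j0, hj0⟩ := huMe
  have hM1 : 1 ≤ M := by rw [← hj0]; exact hu1 j0
  have hM1R : (1 : ℝ) ≤ M := by exact_mod_cast hM1
  set x := pt b u with hx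
  -- heights
  have hup : logHeight x ≤ D * Real.log M + c1 := by
    have h1 := logHeight_linearMap_apply_le B1 (fun l => (u l : K))
    have h2 : (fun j => ∑ i, B1 (j, i) * (u i : K)) = x := by
      funext j
      rw [hx]
      unfold pt
      exact Finset.sum_congr rfl fun l _ => by rw [mul_comm]
    rw [h2] at h1
    have h3 : logHeight (fun l => (u l : K)) ≤ (totalWeight K : ℝ) * Real.log M := by
      refine logHeight_le_of ?_ (by linarith) ?_ ?_
      · intro h
        have := congrFun h j0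
        simp only [Pi.zero_apply, Nat.cast_eq_zero, hj0] at this
        omega
      · intro w i
        have e1 : w (u i : K) = u i := by simp
        rw [e1]
        exact_mod_cast huM i
      · intro v i
        exact fv_nat v _
    rw [hc1]
    linarith
  have hlow : D * Real.log M ≤ logHeight x + c2 := by
    have h1 := logHeight_linearMap_apply_le B2 x
    have h2 : (fun j => ∑ i, B2 (j, i) * x i) = fun l => (u l : K) := by
      funext l
      have h3 : ∑ i, B2 (l, i) * x i = (e l)⁻¹ * ∑ i, L (Fin.castSucc l) i * x i := by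
        rw [Finset.mul_sum]
        refine Finset.sum_congr rfl fun i _ => ?_
        simp only [hB2]
        rw [div_eq_mul_inv]
        ring
      rw [h3, hx, form_pt']
      simp only [hb]
      rw [Finset.sum_eq_single l]
      · rw [if_pos rfl]
        field_simp [he l]
      · intro i _ hi
        rw [if_neg (Ne.symm hi), mul_zero]
      · intro h
        exact absurd (Finset.mem_univ _) h
    rw [h2] at h1
    have h3 := logHeight_nat_ge (K := K) u M hM1 ⟨j0, hj0⟩ hug
    rw [hc2]
    linarith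
  refine ⟨by linarith, by linarith, ?_⟩
  -- values
  have v1 : ∀ i : Fin (n + 1), ∑ j, L (Fin.castSucc i) j * x j = (u i : K) * e i := by
    intro i
    rw [hx, form_pt']
    simp only [hb]
    rw [Finset.sum_eq_single i]
    · rw [if_pos rfl]
    · intro l _ hl
      rw [if_neg (Ne.symm hl), mul_zero]
    · intro h
      exact absurd (Finset.mem_univ _) h
  set w : ℤ := ∑ l, (u l : ℤ) * aa n l with hw
  have v2 : ∑ j, L (Fin.last (n + 1)) j * x j = (w : K) := by
    rw [hx, form_pt', hw]
    push_cast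
    simp only [hbl]
  have hwdvd : ((2 ^ m : ℕ) : ℤ) ∣ w := by
    have h1 : w = ∑ l, ((u l : ℤ) - u j0) * aa n l := by
      rw [hw]
      simp only [sub_mul, Finset.sum_sub_distrib]
      rw [← Finset.mul_sum, aa_sum, mul_zero, sub_zero]
    rw [h1]
    refine Finset.dvd_sum fun l _ => Dvd.dvd.mul_right ?_ _
    exact (Nat.modEq_iff_dvd.1 (hum j0 l))
  obtain ⟨W, hW⟩ : ∃ W : ℕ, w.natAbs = 2 ^ m * W := by
    have := Int.natCast_dvd.1 hwdvd
    exact this
  have hFev : MvPolynomial.eval x F = (∏ i : Fin (n + 1), ((u i : K) * e i)) * (w : K) *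
      MvPolynomial.eval x E := by
    rw [hF, map_mul, map_prod, Fin.prod_univ_castSucc]
    simp only [lin_eval]
    rw [v2, Finset.prod_congr rfl fun i _ => v1 i]
  rw [hFev] at hFx
  have n3 : MvPolynomial.eval x E ≠ 0 := right_ne_zero_of_mul hFx
  have hw0 : w ≠ 0 := by
    intro h
    apply hFx
    rw [h]
    simp
  have hW1 : 1 ≤ W := by
    rw [Nat.one_le_iff_ne_zero]
    rintro rfl
    rw [mul_zero, Int.natAbs_eq_zero] at hW
    exact hw0 hW
  set U0 : ℕ := ∏ p ∈ PP y, p with hU0
  have hU01 : 1 ≤ U0 := Finset.prod_pos fun p hp => (mem_PP.1 hp).2.1.pos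
  -- key
  have key : ∀ v, Bad v F d x → v ∈ T0 ∨ (fv v (U0 : K) < 1 ∨ fv v (W : K) < 1 ∨
      fv v (MvPolynomial.eval x E) < 1) := by
    intro v hbad
    by_cases hv : v ∈ T0
    · exact Or.inl hv
    right
    by_contra hcon
    push Not at hcon
    obtain ⟨q1, q2, q3⟩ := hcon
    have f2 : fv v (2 : K) = 1 := (hT0 v hv 2 hm2).1 two_ne_zero
    have hpr : ∀ p ∈ PP y, fv v (p : K) = 1 := by
      intro p hp
      refine le_antisymm (fv_nat v p) ?_
      have h1 : (U0 : K) = (p : K) * ((∏ q ∈ (PP y).erase p, q : ℕ) : K) := by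
        rw [hU0, ← Finset.mul_prod_erase _ _ hp, Nat.cast_mul]
      rw [h1, map_mul] at q1
      have h2 := fv_nat v (∏ q ∈ (PP y).erase p, q)
      have h3 := (fv v).nonneg (p : K)
      nlinarith
    have i0' : ∀ l, fv v (x l) ≤ 1 := by
      intro l
      rw [hx]
      unfold pt
      refine fv_sum_le v _ _ fun i _ => ?_
      rw [map_mul]
      exact mul_le_one₀ (fv_nat v _) ((fv v).nonneg _) (hmb v hv _ _)
    have i4 : fv v (MvPolynomial.eval x E) ≤ 1 := fv_mv_le v E (hcE v hv) i0'
    have hprod : fv v (∏ i : Fin (n + 1), ((u i : K) * e i)) = 1 := by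
      rw [map_prod]
      refine Finset.prod_eq_one fun i _ => ?_
      rw [map_mul, hme v hv, mul_one]
      exact fv_prime v _ (hu1 i) fun p hp hpu => hpr p (huP i p hp hpu)
    have hwv : fv v (w : K) = 1 := by
      rw [fv_cast_natAbs, hW, Nat.cast_mul, Nat.cast_pow, map_mul, map_pow]
      have : fv v ((2 : ℕ) : K) = 1 := by exact_mod_cast f2
      rw [this, one_pow, one_mul]
      exact le_antisymm (fv_nat v W) q2
    have hval : fv v (MvPolynomial.eval x F) = 1 := by
      rw [hFev, map_mul, map_mul, hprod, hwv, le_antisymm i4 q3]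
      norm_num
    unfold Bad at hbad
    rw [hval] at hbad
    have hs1 : (⨆ m, fv v (F.coeff m)) ≤ 1 := ciSup_le fun m => hcF v hv m
    have hs2 : (⨆ j, fv v (x j)) ≤ 1 := ciSup_le fun j => i0' j
    have hs0 : 0 ≤ (⨆ j, fv v (x j)) := Real.iSup_nonneg fun j => (fv v).nonneg _
    have := mul_le_one₀ hs1 (pow_nonneg hs0 d) (pow_le_one₀ hs0 hs2)
    linarith
  have nU : (U0 : K) ≠ 0 := Nat.cast_ne_zero.2 (by omega)
  have nW : (W : K) ≠ 0 := Nat.cast_ne_zero.2 (by omega)
  refine ⟨?_, fun T hT => ?_⟩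
  · refine (T0.finite_toSet.union ((fv_support_finite nU).union ((fv_support_finite nW).union
      (fv_support_finite n3)))).subset ?_
    intro v hv
    rcases key v hv with h | h | h | h
    · exact Or.inl h
    · exact Or.inr (Or.inl h.ne)
    · exact Or.inr (Or.inr (Or.inl h.ne))
    · exact Or.inr (Or.inr (Or.inr h.ne))
  have h1 := sum_union_le (Finset.univ : Finset (Fin 3))
    ![(U0 : K), (W : K), MvPolynomial.eval x E] (by
      intro l _
      fin_cases l
      · exact nU
      · exact nW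
      · exact n3) T0 T (by
      intro v hv
      rcases key v (hT v hv) with h | h | h | h
      · exact Or.inl h
      · exact Or.inr ⟨0, Finset.mem_univ _, h⟩
      · exact Or.inr ⟨1, Finset.mem_univ _, h⟩
      · exact Or.inr ⟨2, Finset.mem_univ _, h⟩)
  rw [Fin.sum_univ_three] at h1
  change ∑ v ∈ T, ell v ≤ ∑ v ∈ T0, ell v + (logHeight₁ (U0 : K) + logHeight₁ (W : K) +
    logHeight₁ (MvPolynomial.eval x E)) at h1
  have g1 : logHeight₁ (U0 : K) = D * ∑ p ∈ PP y, Real.log p := by
    rw [logHeight₁_nat hU01, hU0]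
    push_cast
    rw [Real.log_prod (fun p hp => by
      have := (mem_PP.1 hp).2.1.pos
      positivity)]
  have g2 : logHeight₁ (W : K) ≤ D * (2 * Real.log (n + 1) + Real.log M - m * Real.log 2) := by
    rw [logHeight₁_nat hW1]
    refine mul_le_mul_of_nonneg_left ?_ hD0
    have hle : (2 : ℝ) ^ m * W ≤ ((n : ℝ) + 1) ^ 2 * M := by
      have h2 : ((w.natAbs : ℕ) : ℝ) ≤ ((n : ℝ) + 1) ^ 2 * M := by
        rw [Nat.cast_natAbs, hw]
        push_cast
        calc |∑ l, (u l : ℝ) * (aa n l : ℝ)| ≤ ∑ l, |(u l : ℝ) * (aa n l : ℝ)| :=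
              Finset.abs_sum_le_sum_abs _ _
          _ ≤ ∑ l : Fin (n + 1), (M : ℝ) * (n + 1) := by
              refine Finset.sum_le_sum fun l _ => ?_
              rw [abs_mul, Nat.abs_cast]
              refine mul_le_mul (by exact_mod_cast huM l) ?_ (abs_nonneg _) (by linarith)
              exact_mod_cast aa_abs n l
          _ = _ := by
              rw [Finset.sum_const, Finset.card_univ, Fintype.card_fin, nsmul_eq_mul]
              push_cast
              ring
      rw [hW] at h2
      push_cast at h2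
      exact h2
    have hWR : (0 : ℝ) < W := by exact_mod_cast hW1
    have hn1 : (0 : ℝ) < (n : ℝ) + 1 := by positivity
    have h3 := Real.log_le_log (by positivity) hle
    rw [Real.log_mul (by positivity) hWR.ne', Real.log_mul (by positivity) (by linarith),
      Real.log_pow, Real.log_pow] at h3
    push_cast at h3
    linarith
  have g3 : logHeight₁ (MvPolynomial.eval x E) ≤ D * (E.totalDegree * Real.log M) + |C3| := by
    have h2 := hC3 u M huM hM1
    rw [hREv] at h2
    refine h2.trans (add_le_add ?_ (le_abs_self _))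
    refine mul_le_mul_of_nonneg_left ?_ hD0
    exact mul_le_mul_of_nonneg_right (by exact_mod_cast hREdeg) (Real.log_nonneg hM1R)
  rw [g1] at h1
  have : D * (∑ p ∈ PP y, Real.log (p : ℝ) + (1 + (E.totalDegree : ℝ)) * Real.log M -
      m * Real.log 2) + c3 = ∑ v ∈ T0, ell v + (D * ∑ p ∈ PP y, Real.log (p : ℝ) +
      D * (2 * Real.log (n + 1) + Real.log M - m * Real.log 2) +
      (D * (E.totalDegree * Real.log M) + |C3|)) := by
    rw [hc3]; ring
  linarith

end Pool.Agent.K4H9.ST
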